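import Pool.Agent.Helper37.ETC.Defs

/-! Block ETC-N12: the norm form as a product over the roots of unity (helper16). -/

set_option autoImplicit false

namespace Pool.Helper37.ETC

open Finset

section NF

variable {p : ℕ} [Fact p.Prime]

/-- N2 -/
theorem map_nf {R S : Type*} [CommRing R] [CommRing S] (f : R →+* S) (x : Fin p → R) (a : R) :
    f (nf x a) = nf (fun i => f (x i)) (f a) := by
  unfold nf
  rw [RingHom.map_det]
  congr 1
  ext i j
  simp only [RingHom.mapMatrix_apply, Matrix.map_apply, Matrix.of_apply]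
  split_ifs
  · rfl
  · rw [map_mul]

/-- N4 (for `p = 2`) -/
theorem nf_two {F : Type*} [Field F] (x : Fin 2 → F) (a : F) :
    nf x a = x 0 ^ 2 - a * x 1 ^ 2 := by
  unfold nf
  rw [Matrix.det_fin_two]
  simp only [Matrix.of_apply]
  have h1 : ((0 : Fin 2) - 1) = 1 := by decide
  have h2 : ((1 : Fin 2) - 0) = 1 := by decide
  have h3 : ((0 : Fin 2) - 0) = 0 := by decide
  have h4 : ((1 : Fin 2) - 1) = 0 := by decide
  have h5 : ¬ ((1 : Fin 2) ≤ 0) := by decide
  have h6 : ((0 : Fin 2) ≤ 1) := by decide
  rw [h1, h2, h3, h4, if_pos le_rfl, if_pos le_rfl, if_neg h5, if_pos h6]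
  ring

theorem N12_zero {K : Type*} [Field K] (x : Fin p → K) (hp : 0 < p) :
    nf x 0 = x ⟨0, hp⟩ ^ p := by
  unfold nf
  rw [Matrix.det_of_isLowerTriangular]
  · simp only [Matrix.of_apply, le_refl, if_true]
    have : ∀ i : Fin p, x (i - i) = x ⟨0, hp⟩ := by
      intro i
      congr 1
      have : NeZero p := ⟨hp.ne'⟩
      rw [sub_self]
      rfl
    rw [Finset.prod_congr rfl fun i _ => this i]
    simp
  · intro i j hij
    have h : ¬ (j ≤ i) := by
      rw [OrderDual.toDual_lt_toDual] at hij
      exact not_le.2 hij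
    rw [Matrix.of_apply, if_neg h, zero_mul]

/-- N1 -/
theorem nf_eq_prod {K : Type*} [Field K] {ζ : K} (hζ : IsPrimitiveRoot ζ p) (x : Fin p → K)
    (α : K) : nf x (α ^ p) =
      ∏ i ∈ Finset.range p, ∑ j : Fin p, x j * (ζ ^ i * α) ^ (j : ℕ) := by
  have hp : 0 < p := (Fact.out : p.Prime).pos
  have : NeZero p := ⟨hp.ne'⟩
  by_cases hα : α = 0
  · subst hα
    rw [zero_pow hp.ne', N12_zero x hp]
    have : ∀ i ∈ Finset.range p, ∑ j : Fin p, x j * (ζ ^ i * 0) ^ (j : ℕ) = x ⟨0, hp⟩ := by
      intro i _
      rw [mul_zero]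
      rw [Finset.sum_eq_single (⟨0, hp⟩ : Fin p)]
      · simp
      · intro j _ hj
        have : (j : ℕ) ≠ 0 := fun h => hj (Fin.ext h)
        rw [zero_pow this, mul_zero]
      · intro h
        exact absurd (Finset.mem_univ _) h
    rw [Finset.prod_congr rfl this, Finset.prod_const, Finset.card_range]
  · set t : Fin p → K := fun i => ζ ^ (i : ℕ) * α with ht
    set M : Matrix (Fin p) (Fin p) K :=
      Matrix.of fun i j : Fin p => if j ≤ i then x (i - j) else α ^ p * x (i - j) with hM
    set W : Matrix (Fin p) (Fin p) K := Matrix.vandermonde t with hW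
    set u : Fin p → K := fun i => ∑ j : Fin p, x j * t i ^ (j : ℕ) with hu
    have htp : ∀ i, t i ^ p = α ^ p := by
      intro i
      simp only [ht]
      rw [mul_pow, ← pow_mul, mul_comm (i : ℕ) p, pow_mul, hζ.pow_eq_one, one_pow, one_mul]
    have hdetW : W.det ≠ 0 := by
      rw [hW, Matrix.det_vandermonde_ne_zero_iff]
      intro i j hij
      simp only [ht] at hij
      have := mul_right_cancel₀ hα hij
      exact Fin.ext (hζ.pow_inj i.2 j.2 this)
    have hWM : W * M = Matrix.diagonal u * W := by
      ext i j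
      rw [Matrix.mul_apply, Matrix.diagonal_mul]
      simp only [hW, hM, hu, Matrix.vandermonde_apply, Matrix.of_apply]
      rw [Finset.sum_mul, ← Equiv.sum_comp (Equiv.addRight j)]
      refine Finset.sum_congr rfl fun m _ => ?_
      rw [Equiv.coe_addRight, add_sub_cancel_right]
      have hval : ((m + j : Fin p) : ℕ) = (m.val + j.val) % p := Fin.val_add m j
      have hm := m.2
      have hj := j.2
      by_cases h : m.val + j.val < p
      · have h1 : ((m + j : Fin p) : ℕ) = m.val + j.val := by
          rw [hval, Nat.mod_eq_of_lt h]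
        have h2 : j ≤ m + j := by
          rw [Fin.le_iff_val_le_val, h1]
          omega
        rw [if_pos h2, h1, pow_add]
        ring
      · have h1 : ((m + j : Fin p) : ℕ) = m.val + j.val - p := by
          rw [hval, Nat.mod_eq_sub_mod (by omega), Nat.mod_eq_of_lt (by omega)]
        have h2 : ¬ (j ≤ m + j) := by
          rw [Fin.le_iff_val_le_val, h1]
          omega
        rw [if_neg h2, h1, ← htp i]
        have h3 : t i ^ (m.val + j.val - p) * t i ^ p = t i ^ m.val * t i ^ j.val := by
          rw [← pow_add, ← pow_add]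
          congr 1
          omega
        calc t i ^ (m.val + j.val - p) * (t i ^ p * x m)
            = (t i ^ (m.val + j.val - p) * t i ^ p) * x m := by ring
          _ = x m * t i ^ m.val * t i ^ j.val := by rw [h3]; ring
    have hdet : M.det = ∏ i, u i := by
      have h := congrArg Matrix.det hWM
      rw [Matrix.det_mul, Matrix.det_mul, Matrix.det_diagonal, mul_comm] at h
      exact mul_right_cancel₀ hdetW h
    show M.det = _
    rw [hdet, Finset.prod_range]

/-- N5 (Steinberg; uses N1) -/
theorem nf_stein {K : Type*} [Field K] {ζ : K} (hζ : IsPrimitiveRoot ζ p) (α : K) :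
    nf (fun j : Fin p => if (j : ℕ) = 0 then (1 : K) else if (j : ℕ) = 1 then -1 else 0) (α ^ p) =
      1 - α ^ p := by
  have hp : 0 < p := (Fact.out : p.Prime).pos
  have hp1 : 1 < p := (Fact.out : p.Prime).one_lt
  rw [nf_eq_prod hζ]
  have h1 : ∀ i ∈ Finset.range p, ∑ j : Fin p,
      (if (j : ℕ) = 0 then (1 : K) else if (j : ℕ) = 1 then -1 else 0) * (ζ ^ i * α) ^ (j : ℕ) =
      1 - ζ ^ i * α := by
    intro i _
    rw [Fin.sum_univ_eq_sum_range
      (fun j => (if j = 0 then (1 : K) else if j = 1 then -1 else 0) * (ζ ^ i * α) ^ j) p]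
    rw [← Finset.sum_subset (s₁ := Finset.range 2)
      (fun j hj => Finset.mem_range.2 (by have := Finset.mem_range.1 hj; omega))]
    · rw [Finset.sum_range_succ, Finset.sum_range_one]
      simp
      ring
    · intro j _ hj
      have : 2 ≤ j := by
        by_contra h
        exact hj (Finset.mem_range.2 (by omega))
      rw [if_neg (by omega), if_neg (by omega), zero_mul]
  rw [Finset.prod_congr rfl h1]
  have h2 := X_pow_sub_C_eq_prod (R := K) hζ hp (rfl : α ^ p = α ^ p)
  have h3 := congrArg (Polynomial.eval 1) h2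
  rw [Polynomial.eval_prod] at h3
  simp only [Polynomial.eval_sub, Polynomial.eval_pow, Polynomial.eval_X, Polynomial.eval_C,
    one_pow] at h3
  exact h3.symm

end NF

end Pool.Helper37.ETC
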